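import Pool.Agent.H67.CP.Test
import Pool.Agent.H6.CP.Basic
import Pool.Agent.H6.CP.Top
import Pool.Agent.H17.CR.ConA
import Pool.Agent.H17.CR.ConB
import Pool.Agent.H17.CR.ConC
import Pool.Agent.H58.CP.ColAct
import Pool.Agent.H58.CP.ColList
import Pool.Agent.H74.CP.ColInMain
import Pool.Agent.H40.CP.Level
import Pool.Agent.H72.CP.Sum
import Pool.Agent.H72.CP.SupT
import Pool.Agent.H69.CP.Final
import Pool.Agent.H88.CP.Tor
import Pool.Agent.H95.CP.FinIn
import Pool.Agent.H97.CP.FinAct
import Pool.Agent.H97.CP.Core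

set_option autoImplicit false

/-! Assembly of part (a). -/

namespace Pool.Agent.H67.CP

open Pool.Agent.H98.CP

/-- the core statement in dimension two -/
theorem stCore : StCore :=
  H97.CP.core (H69.CP.final
    (H40.CP.comp H6.CP.top
      (H40.CP.level (H67.CP.test H17.CR.stTele H6.CP.pair H6.CP.add
        (H74.CP.stColIn H17.CR.stAtom H17.CR.stWl) H58.CP.colList
        (H58.CP.colAct H17.CR.stWl))) H72.CP.stSum)
    (H95.CP.stFinIn H17.CR.stAtom H17.CR.stWl) (H97.CP.finAct H17.CR.stWl)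
    H17.CR.stTloc H17.CR.stTele H6.CP.pair H6.CP.add)
    H88.CP.stTB H88.CP.stRes H72.CP.stSupT

end Pool.Agent.H67.CP
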