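import Pool.Agent.H98.CP.St

set_option autoImplicit false

/-! The test of one layer at one level: the process over the columns. -/

namespace Pool.Agent.H67.CP

open Finset ComplexConjugate H95.CP Pool.Agent.H67.CM Pool.Agent.H98.CP

/-! ### codes -/

theorem kraft_list {Γ X Y : Type*} [Inhabited Y] (S : Set Γ) (PP : Finset X) (b : ℝ)
    (hb : (PP.card : ℝ) ≤ 2 ^ b) (Q : Γ → X → Prop) (hQ : ∀ g ∈ S, ∃ x ∈ PP, Q g x) (F : X → Y) :
    ∃ f : Γ → Y, Kraft S f (fun _ => b) ∧ ∀ g ∈ S, ∃ x, Q g x ∧ f g = F x := by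
  classical
  have h1 : ∀ g : Γ, ∃ y : Y, g ∈ S → y ∈ PP.image F ∧ ∃ x, Q g x ∧ y = F x := by
    intro g
    by_cases hg : g ∈ S
    · obtain ⟨x, hx, hq⟩ := hQ g hg
      exact ⟨F x, fun _ => ⟨mem_image_of_mem F hx, x, hq, rfl⟩⟩
    · exact ⟨default, fun h => absurd h hg⟩
  choose f hf using h1
  refine ⟨f, ?_, fun g hg => (hf g hg).2⟩
  refine Kraft.of_card (PP.image F) (fun g hg => (hf g hg).1) b ?_
  refine le_trans ?_ hb
  exact_mod_cast card_image_le

open scoped Classical in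
theorem kraft_ite {Γ Y : Type*} {S : Set Γ} {f1 f2 : Γ → Y} {c1 c2 : Γ → ℝ} (p : Γ → Prop)
    (h1 : Kraft {g | g ∈ S ∧ p g} f1 c1) (h2 : Kraft {g | g ∈ S ∧ ¬ p g} f2 c2) :
    ∃ f : Γ → Y, Kraft S f (fun g => 1 + if p g then c1 g else c2 g) ∧
      (∀ g, p g → f g = f1 g) ∧ ∀ g, ¬ p g → f g = f2 g := by
  refine ⟨fun g => if p g then f1 g else f2 g, Kraft.ite p ?_ ?_, fun g hg => if_pos hg,
    fun g hg => if_neg hg⟩
  · refine h1.mono (Set.Subset.refl _) (fun g hg => ?_) (fun _ _ => le_rfl)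
    rw [if_pos hg.2]
  · refine h2.mono (Set.Subset.refl _) (fun g hg => ?_) (fun _ _ => le_rfl)
    rw [if_neg hg.2]

/-! ### parameters -/

theorem par_Lg {j1 j0 j u M : ℕ} (h : Par j1 j0 j u M) : Lg M j := by
  have h1 := h.h3
  have h2 := h.big
  unfold Big at h2
  have h3 : M < 2 ^ Nat.size M := Nat.lt_size_self M
  have h4 : 1000 * (j + 2) ≤ 2 ^ Nat.size M := by omega
  unfold Lg
  calc 100 * (j + 2) ^ 2 ≤ (1000 * (j + 2)) ^ 2 := by nlinarith
    _ ≤ (2 ^ Nat.size M) ^ 2 := Nat.pow_le_pow_left h4 2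
    _ = 4 ^ Nat.size M := by rw [← pow_mul, mul_comm, pow_mul]; norm_num
    _ ≤ 8 ^ Nat.size M := Nat.pow_le_pow_left (by norm_num) _

theorem par_mono {j1 j1' j0 j u M : ℕ} (h : Par j1 j0 j u M) (hj : j1' ≤ j1) :
    Par j1' j0 j u M := ⟨hj.trans h.h1, h.h2, h.h3, h.big⟩

theorem jok_JJ (u j : ℕ) (hj : 3 ≤ j) : Jok j (JJ u j) (4 * j) := by
  unfold Jok JJ
  refine ⟨?_, by omega, by omega⟩
  have h1 : j + 2 ≤ 8 ^ (j + 2) := (Nat.lt_pow_self (by norm_num)).le
  calc 1000 * (j + 2) ^ 2 ≤ 8 ^ 4 * (8 ^ (j + 2)) ^ 2 :=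
        Nat.mul_le_mul (by norm_num) (Nat.pow_le_pow_left h1 2)
    _ = 8 ^ (4 + (j + 2) * 2) := by rw [← pow_mul, ← pow_add]
    _ ≤ 8 ^ (300 * (u + j + 1)) := Nat.pow_le_pow_right (by norm_num) (by omega)

/-! ### blocks -/

theorem mem_DD {M j b c : ℕ} {k : G M} :
    k ∈ DD M j b c ↔ Band j b (fa k.1) ∧ Band j c (fa k.2) := by
  unfold DD
  simp

theorem DD_col {M j a b c c' : ℕ} {k : G M} (h1 : k ∈ DD M j a c) (h2 : k ∈ DD M j b c') :
    a = b := by
  have key : ∀ a b : ℕ, a < b → Band j a (fa k.1) → Band j b (fa k.1) → False := by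
    intro a b hab h3 h4
    have h5 := h3.lt
    have h6 := h4.gt
    have h7 : 8 ^ (a + 1) ≤ 8 ^ b := Nat.pow_le_pow_right (by norm_num) hab
    rw [pow_succ] at h7
    omega
  rw [mem_DD] at h1 h2
  rcases lt_trichotomy a b with h | h | h
  · exact (key a b h h1.1 h2.1).elim
  · exact h
  · exact (key b a h h2.1 h1.1).elim

/-! ### states -/

/-- a state of the process -/
structure State (M : ℕ) where
  act : Finset ℕ
  h : ℕ → G M → ℝ
  psi : G M → ℂ

instance {M : ℕ} : Inhabited (State M) := ⟨⟨∅, fun _ _ => 0, fun _ => 0⟩⟩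

/-- the invariant before the column `b` -/
structure Inv {M : ℕ} (u j b : ℕ) (s : State M) (w : Cf M) : Prop where
  rs : RS M u j (JJ u j) (4 * j) (SG u j) s.act s.h
  sub : ∀ a ∈ s.act, a < b
  lam : ∀ k, s.psi k ≠ 0 → k ∈ w.Lam
  kn : ∀ a < b, Rg M u a → (colm w.Lam a).card ≤ 8 ^ M →
    ∀ k ∈ DD M j a (M + u - a), ‖co2 (cx w.g) k - s.psi k‖ ^ 2 ≤ TH j / 8 ^ M
  supp : ∀ k, s.psi k ≠ 0 → ∃ a < b, k ∈ DD M j a (M + u - a)
  val : (s.act.card : ℝ) * (8 ^ (2 * j) / 2 / (2 * CV j))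
    ≤ ∑ a ∈ range b, ER (fun x => w.g x * (Psi s.h a x * s.h a x))

/-- the exceptional columns -/
def Exc {M : ℕ} (u j b : ℕ) (s : State M) (w : Cf M) : Prop :=
  Rg M u b ∧ (colm w.Lam b).card ≤ 8 ^ M ∧ (¬ Elg M u (JJ u j) (4 * j) s.act b ∨
    ∃ η, Adm j b (M + u - b) (JJ u j) (SG u j) (Psi s.h b) η ∧
      8 ^ (2 * j) ≤ tst j b (M + u - b) (Psi s.h b) w.g η)

open scoped Classical in
/-- the cost of a column -/
noncomputable def cost {M : ℕ} (u j b : ℕ) (s : State M) (w : Cf M) : ℝ :=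
  cin M u j + 4 + if Exc u j b s w then cex M u j + 4 else 0

theorem cin_nonneg (M u j : ℕ) : 0 ≤ cin M u j := by unfold cin; positivity

theorem cex_nonneg (M u j : ℕ) : 0 ≤ cex M u j := by unfold cex; positivity

theorem ER_zero' {M : ℕ} : ER (fun _ : G M => (0 : ℝ)) = 0 := by
  unfold ER
  simp

theorem Psi_congr {M : ℕ} {h h' : ℕ → G M → ℝ} {b : ℕ} (hh : ∀ a < b, h' a = h a) (x : G M) :
    Psi h' b x = Psi h b x := by
  unfold Psi
  refine Finset.prod_congr rfl (fun a ha => ?_)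
  rw [hh a (mem_range.1 ha)]

section step

variable {M u j b : ℕ} {s : State M} {w : Cf M}

/-- the column is skipped -/
theorem Inv.skip (hi : Inv u j b s w) (hn : Rg M u b → ¬ (colm w.Lam b).card ≤ 8 ^ M) :
    Inv u j (b + 1) s w := by
  refine ⟨hi.rs, fun a ha => (hi.sub a ha).trans (Nat.lt_succ_self b), hi.lam, ?_, ?_, ?_⟩
  · intro a ha hR hc
    rcases Nat.lt_succ_iff_lt_or_eq.1 ha with h | h
    · exact hi.kn a h hR hc
    · subst h
      exact absurd hc (hn hR)
  · intro k hk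
    obtain ⟨a, ha, h⟩ := hi.supp k hk
    exact ⟨a, by omega, h⟩
  · rw [sum_range_succ]
    have h0 : ER (fun x => w.g x * (Psi s.h b x * s.h b x)) = 0 := by
      have h1 : ∀ x, s.h b x = 0 := hi.rs.off b (fun h => absurd (hi.sub b h) (lt_irrefl _))
      simp only [h1, mul_zero]
      exact ER_zero'
    rw [h0, add_zero]
    exact hi.val

/-- the column is described, no new factor -/
theorem Inv.desc (hi : Inv u j b s w) {p : G M → ℂ} (hp : KnB j b (M + u - b) p w)
    (h0 : ∀ k, k ∉ DD M j b (M + u - b) → p k = 0) :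
    Inv u j (b + 1) ⟨s.act, s.h, fun k => s.psi k + p k⟩ w := by
  have hdis : ∀ a < b, ∀ k ∈ DD M j a (M + u - a), p k = 0 := by
    intro a ha k hk
    refine h0 k (fun h => ?_)
    have := DD_col hk h
    omega
  refine ⟨hi.rs, fun a ha => (hi.sub a ha).trans (Nat.lt_succ_self b), ?_, ?_, ?_, ?_⟩
  · intro k hk
    by_cases h1 : s.psi k = 0
    · refine hp.1 k (fun h2 => hk ?_)
      show s.psi k + p k = 0
      rw [h1, h2, add_zero]
    · exact hi.lam k h1
  · intro a ha hR hc k hk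
    show ‖co2 (cx w.g) k - (s.psi k + p k)‖ ^ 2 ≤ TH j / 8 ^ M
    rcases Nat.lt_succ_iff_lt_or_eq.1 ha with h | h
    · rw [hdis a h k hk, add_zero]
      exact hi.kn a h hR hc k hk
    · subst h
      have h1 : s.psi k = 0 := by
        by_contra h2
        obtain ⟨a', ha', h3⟩ := hi.supp k h2
        have := DD_col hk h3
        omega
      rw [h1, zero_add]
      exact hp.2 k hk
  · intro k hk
    by_cases h1 : s.psi k = 0
    · refine ⟨b, Nat.lt_succ_self b, ?_⟩
      by_contra h2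
      refine hk ?_
      show s.psi k + p k = 0
      rw [h1, h0 k h2, add_zero]
    · obtain ⟨a, ha, h⟩ := hi.supp k h1
      exact ⟨a, by omega, h⟩
  · show (s.act.card : ℝ) * (8 ^ (2 * j) / 2 / (2 * CV j))
      ≤ ∑ a ∈ range (b + 1), ER (fun x => w.g x * (Psi s.h a x * s.h a x))
    rw [sum_range_succ]
    have h0 : ER (fun x => w.g x * (Psi s.h b x * s.h b x)) = 0 := by
      have h1 : ∀ x, s.h b x = 0 := hi.rs.off b (fun h => absurd (hi.sub b h) (lt_irrefl _))
      simp only [h1, mul_zero]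
      exact ER_zero'
    rw [h0, add_zero]
    exact hi.val

/-- the column is active -/
theorem Inv.active (hP : StPair) (hA : StAdd) (hi : Inv u j b s w) {p : G M → ℂ}
    (hp : KnB j b (M + u - b) p w) (h0 : ∀ k, k ∉ DD M j b (M + u - b) → p k = 0)
    (he : Elg M u (JJ u j) (4 * j) s.act b) {η : Gr (b + 1) (M + u - b + 1) → ℝ}
    (ha : Adm j b (M + u - b) (JJ u j) (SG u j) (Psi s.h b) η)
    (hv : 8 ^ (2 * j) / 2 ≤ tst j b (M + u - b) (Psi s.h b) w.g η) :
    Inv u j (b + 1) ⟨insert b s.act,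
      Function.update s.h b (fun x => hh j b (M + u - b) η x), fun k => s.psi k + p k⟩ w := by
  have hd := hi.desc hp h0
  have hb : b ∉ s.act := fun h => absurd (hi.sub b h) (lt_irrefl _)
  refine ⟨?_, ?_, hd.lam, hd.kn, hd.supp, ?_⟩
  · exact hA M u j (JJ u j) (4 * j) (SG u j) s.act s.h b η hi.rs he
      (by unfold JJ; omega) ha
  · intro a ha
    rcases mem_insert.1 ha with h | h
    · omega
    · exact (hi.sub a h).trans (Nat.lt_succ_self b)
  · show ((insert b s.act).card : ℝ) * (8 ^ (2 * j) / 2 / (2 * CV j))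
      ≤ ∑ a ∈ range (b + 1), ER (fun x => w.g x *
        (Psi (Function.update s.h b (fun x => hh j b (M + u - b) η x)) a x *
          (Function.update s.h b (fun x => hh j b (M + u - b) η x)) a x))
    rw [sum_range_succ, card_insert_of_notMem hb]
    have h1 : ∀ a < b, Function.update s.h b (fun x => hh j b (M + u - b) η x) a = s.h a := by
      intro a ha
      exact Function.update_of_ne (by omega) _ _
    have h2 : ∑ a ∈ range b, ER (fun x => w.g x *
        (Psi (Function.update s.h b (fun x => hh j b (M + u - b) η x)) a x *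
          (Function.update s.h b (fun x => hh j b (M + u - b) η x)) a x))
        = ∑ a ∈ range b, ER (fun x => w.g x * (Psi s.h a x * s.h a x)) := by
      refine sum_congr rfl (fun a ha => ?_)
      have ha' := mem_range.1 ha
      congr 1
      funext x
      rw [h1 a ha', Psi_congr (fun a' ha'' => h1 a' (by omega)) x]
    have h3 : ER (fun x => w.g x *
        (Psi (Function.update s.h b (fun x => hh j b (M + u - b) η x)) b x *
          (Function.update s.h b (fun x => hh j b (M + u - b) η x)) b x))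
        = (1 / (2 * CV j)) * tst j b (M + u - b) (Psi s.h b) w.g η := by
      rw [← hP M j b (M + u - b) w.g (Psi s.h b) η]
      congr 1
      funext x
      rw [Function.update_self, Psi_congr (fun a' ha'' => h1 a' ha'') x]
    rw [h2, h3]
    have hC := CV_pos j
    have h4 : (8 ^ (2 * j) / 2 / (2 * CV j) : ℝ)
        ≤ (1 / (2 * CV j)) * tst j b (M + u - b) (Psi s.h b) w.g η := by
      rw [div_eq_mul_one_div (8 ^ (2 * j) / 2 : ℝ) (2 * CV j), mul_comm]
      exact mul_le_mul_of_nonneg_left hv (by positivity)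
    have h5 := hi.val
    push_cast
    linarith

end step

/-- one step -/
theorem step_ex (hP : StPair) (hA : StAdd) {M u j : ℕ}
    {S : Set (Cf M)} {j0 : ℕ} {phi : G M → ℂ}
    (hI : ∀ (act : Finset ℕ) (h : ℕ → G M → ℝ) (b : ℕ) (phi : G M → ℂ),
      RS M u j (JJ u j) (4 * j) (SG u j) act h → Elg M u (JJ u j) (4 * j) act b →
      ∃ PP : Finset (G M → ℂ), (PP.card : ℝ) ≤ 2 ^ cin M u j ∧
        ∀ w : Cf M, Know j0 (j + 1) phi w → (colm w.Lam b).card ≤ 8 ^ M →
          (∀ η, Adm j b (M + u - b) (JJ u j) (SG u j) (Psi h b) η →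
            tst j b (M + u - b) (Psi h b) w.g η < 8 ^ (2 * j)) →
          ∃ psi ∈ PP, KnB j b (M + u - b) psi w ∧ ∀ k, k ∉ DD M j b (M + u - b) → psi k = 0)
    (hL : ∀ (b : ℕ) (phi : G M → ℂ), Rg M u b →
      ∃ PP : Finset (G M → ℂ), (PP.card : ℝ) ≤ 2 ^ cex M u j ∧
        ∀ w : Cf M, Know j0 (j + 1) phi w → (colm w.Lam b).card ≤ 8 ^ M →
          ∃ psi ∈ PP, KnB j b (M + u - b) psi w ∧ ∀ k, k ∉ DD M j b (M + u - b) → psi k = 0)
    (hAc : ∀ (act : Finset ℕ) (h : ℕ → G M → ℝ) (b : ℕ) (phi : G M → ℂ),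
      RS M u j (JJ u j) (4 * j) (SG u j) act h → Elg M u (JJ u j) (4 * j) act b →
      ∃ PP : Finset ((Gr (b + 1) (M + u - b + 1) → ℝ) × (G M → ℂ)),
        (PP.card : ℝ) ≤ 2 ^ cex M u j ∧
        ∀ w : Cf M, Know j0 (j + 1) phi w → (colm w.Lam b).card ≤ 8 ^ M →
          (∃ η, Adm j b (M + u - b) (JJ u j) (SG u j) (Psi h b) η ∧
            8 ^ (2 * j) ≤ tst j b (M + u - b) (Psi h b) w.g η) →
          ∃ p ∈ PP, Adm j b (M + u - b) (JJ u j) (SG u j) (Psi h b) p.1 ∧
            8 ^ (2 * j) / 2 ≤ tst j b (M + u - b) (Psi h b) w.g p.1 ∧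
            KnB j b (M + u - b) p.2 w ∧ ∀ k, k ∉ DD M j b (M + u - b) → p.2 k = 0)
    (hS : ∀ w ∈ S, Know j0 (j + 1) phi w) (b : ℕ) (s : State M) :
    ∃ f : Cf M → State M, Kraft {w | w ∈ S ∧ Inv u j b s w} f (cost u j b s) ∧
      ∀ w ∈ S, Inv u j b s w → Inv u j (b + 1) (f w) w ∧ s.act ⊆ (f w).act ∧
        (Exc u j b s w → b ∈ (f w).act ∨ (Rg M u b ∧ ¬ Elg M u (JJ u j) (4 * j) s.act b)) := by
  classical
  have c0 := cin_nonneg M u j
  have c1 := cex_nonneg M u j
  by_cases hR : Rg M u b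
  swap
  · refine ⟨fun _ => s, (Kraft.const _ s).mono (Set.Subset.refl _) (fun _ _ => rfl)
      (fun w _ => ?_), fun w _ hi => ⟨hi.skip (fun h => absurd h hR), Subset.refl _,
        fun h => absurd h.1 hR⟩⟩
    unfold cost
    split_ifs <;> linarith
  by_cases hemp : ∃ w ∈ S, Inv u j b s w
  swap
  · have hemp' : ∀ w ∈ S, ¬ Inv u j b s w := fun w hw h => hemp ⟨w, hw, h⟩
    refine ⟨fun _ => s, (Kraft.const _ s).mono (Set.Subset.refl _) (fun _ _ => rfl)
      (fun w hw => absurd hw.2 (hemp' w hw.1)), fun w hw hi => absurd hi (hemp' w hw)⟩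
  obtain ⟨w0, hw0, hi0⟩ := hemp
  have hrs := hi0.rs
  set T : Set (Cf M) := {w | w ∈ S ∧ Inv u j b s w} with hT
  by_cases he : Elg M u (JJ u j) (4 * j) s.act b
  · -- eligible column
    obtain ⟨PI, hPI, hI2⟩ := hI s.act s.h b phi hrs he
    obtain ⟨PA, hPA, hA2⟩ := hAc s.act s.h b phi hrs he
    obtain ⟨fA, hfA, hfA2⟩ := kraft_list
      (S := {w | w ∈ {w | w ∈ T ∧ (colm w.Lam b).card ≤ 8 ^ M} ∧
        ∃ η, Adm j b (M + u - b) (JJ u j) (SG u j) (Psi s.h b) η ∧
          8 ^ (2 * j) ≤ tst j b (M + u - b) (Psi s.h b) w.g η})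
      PA (cex M u j) hPA
      (fun w p => Adm j b (M + u - b) (JJ u j) (SG u j) (Psi s.h b) p.1 ∧
          8 ^ (2 * j) / 2 ≤ tst j b (M + u - b) (Psi s.h b) w.g p.1 ∧
          KnB j b (M + u - b) p.2 w ∧ ∀ k, k ∉ DD M j b (M + u - b) → p.2 k = 0)
      (fun w hw => hA2 w (hS w hw.1.1.1) hw.1.2 hw.2)
      (fun p => (⟨insert b s.act, Function.update s.h b (fun x => hh j b (M + u - b) p.1 x),
        fun k => s.psi k + p.2 k⟩ : State M))
    obtain ⟨fI, hfI, hfI2⟩ := kraft_list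
      (S := {w | w ∈ {w | w ∈ T ∧ (colm w.Lam b).card ≤ 8 ^ M} ∧
        ¬ ∃ η, Adm j b (M + u - b) (JJ u j) (SG u j) (Psi s.h b) η ∧
          8 ^ (2 * j) ≤ tst j b (M + u - b) (Psi s.h b) w.g η})
      PI (cin M u j) hPI
      (fun w p => KnB j b (M + u - b) p w ∧ ∀ k, k ∉ DD M j b (M + u - b) → p k = 0)
      (fun w hw => hI2 w (hS w hw.1.1.1) hw.1.2 (fun η hη => by
        by_contra h
        exact hw.2 ⟨η, hη, not_lt.1 h⟩))
      (fun p => (⟨s.act, s.h, fun k => s.psi k + p k⟩ : State M))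
    obtain ⟨f1, k1, k1a, k1b⟩ := kraft_ite _ hfA hfI
    obtain ⟨f2, k2, k2a, k2b⟩ := kraft_ite (S := T) (fun w => (colm w.Lam b).card ≤ 8 ^ M) k1
      (Kraft.const _ s)
    refine ⟨f2, k2.mono (Set.Subset.refl _) (fun _ _ => rfl) (fun w hw => ?_), ?_⟩
    · unfold cost Exc
      by_cases h1 : (colm w.Lam b).card ≤ 8 ^ M
      · rw [if_pos h1]
        by_cases h2 : ∃ η, Adm j b (M + u - b) (JJ u j) (SG u j) (Psi s.h b) η ∧
          8 ^ (2 * j) ≤ tst j b (M + u - b) (Psi s.h b) w.g η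
        · rw [if_pos h2, if_pos ⟨hR, h1, Or.inr h2⟩]
          linarith
        · rw [if_neg h2]
          split_ifs <;> linarith
      · rw [if_neg h1]
        split_ifs <;> linarith
    · intro w hw hi
      by_cases h1 : (colm w.Lam b).card ≤ 8 ^ M
      · rw [k2a w h1]
        by_cases h2 : ∃ η, Adm j b (M + u - b) (JJ u j) (SG u j) (Psi s.h b) η ∧
          8 ^ (2 * j) ≤ tst j b (M + u - b) (Psi s.h b) w.g η
        · rw [k1a w h2]
          obtain ⟨p, ⟨q1, q2, q3, q4⟩, hp⟩ := hfA2 w ⟨⟨⟨hw, hi⟩, h1⟩, h2⟩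
          rw [hp]
          exact ⟨hi.active hP hA q3 q4 he q1 q2, subset_insert _ _,
            fun _ => Or.inl (mem_insert_self _ _)⟩
        · rw [k1b w h2]
          obtain ⟨p, ⟨q3, q4⟩, hp⟩ := hfI2 w ⟨⟨⟨hw, hi⟩, h1⟩, h2⟩
          rw [hp]
          exact ⟨hi.desc q3 q4, Subset.refl _, fun h => (h.2.2.elim (fun h3 => absurd he h3)
            (fun h3 => absurd h3 h2))⟩
      · rw [k2b w h1]
        exact ⟨hi.skip (fun _ => h1), Subset.refl _, fun h => absurd h.2.1 h1⟩
  · -- list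
    obtain ⟨PL, hPL, hL2⟩ := hL b phi hR
    obtain ⟨fL, hfL, hfL2⟩ := kraft_list
      (S := {w | w ∈ T ∧ (colm w.Lam b).card ≤ 8 ^ M})
      PL (cex M u j) hPL
      (fun w p => KnB j b (M + u - b) p w ∧ ∀ k, k ∉ DD M j b (M + u - b) → p k = 0)
      (fun w hw => hL2 w (hS w hw.1.1) hw.2)
      (fun p => (⟨s.act, s.h, fun k => s.psi k + p k⟩ : State M))
    obtain ⟨f2, k2, k2a, k2b⟩ := kraft_ite (S := T) (fun w => (colm w.Lam b).card ≤ 8 ^ M) hfL
      (Kraft.const _ s)
    refine ⟨f2, k2.mono (Set.Subset.refl _) (fun _ _ => rfl) (fun w hw => ?_), ?_⟩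
    · unfold cost Exc
      by_cases h1 : (colm w.Lam b).card ≤ 8 ^ M
      · rw [if_pos h1, if_pos ⟨hR, h1, Or.inl he⟩]
        linarith
      · rw [if_neg h1]
        split_ifs <;> linarith
    · intro w hw hi
      by_cases h1 : (colm w.Lam b).card ≤ 8 ^ M
      · rw [k2a w h1]
        obtain ⟨p, ⟨q3, q4⟩, hp⟩ := hfL2 w ⟨⟨hw, hi⟩, h1⟩
        rw [hp]
        exact ⟨hi.desc q3 q4, Subset.refl _, fun _ => Or.inr ⟨hR, he⟩⟩
      · rw [k2b w h1]
        exact ⟨hi.skip (fun _ => h1), Subset.refl _, fun h => absurd h.2.1 h1⟩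

theorem test (hT : StTele) (hP : StPair) (hA : StAdd) (hI : StColIn) (hL : StColList)
    (hAc : StColAct) : StTest := by
  classical
  obtain ⟨ja, hI⟩ := hI
  obtain ⟨jb, hL⟩ := hL
  obtain ⟨jc, hAc⟩ := hAc
  refine ⟨max (max ja jb) (max jc 3), ?_⟩
  intro A hA1 j0 j u M hPar S phi hS
  have hj3 : 3 ≤ j := by
    have h1 := hPar.h1
    have h2 := hPar.h2
    have : 3 ≤ max (max ja jb) (max jc 3) := by omega
    omega
  have hLg := par_Lg hPar
  have hJok := jok_JJ u j hj3
  have hstep := step_ex hP hA (u := u) (j := j) (S := S) (j0 := j0) (phi := phi)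
    (hI j0 j u M (par_mono hPar (by omega))) (hL j0 j u M (par_mono hPar (by omega)))
    (hAc j0 j u M (par_mono hPar (by omega))) (fun w hw => (hS w hw).1)
  choose step hs1 hs2 using hstep
  have h0 : ∀ w ∈ S, Inv u j 0 (⟨∅, fun _ _ => 0, fun _ => 0⟩ : State M) w := by
    intro w hw
    refine ⟨⟨?_, ?_, ?_, ?_, ?_⟩, ?_, ?_, ?_, ?_, ?_⟩
    · intro a ha; simp at ha
    · intro a ha; simp at ha
    · intro a ha; simp at ha
    · intro a _ x; rfl
    · intro a ha; simp at ha
    · intro a ha; simp at ha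
    · intro k hk; exact absurd rfl hk
    · intro a ha; omega
    · intro k hk; exact absurd rfl hk
    · simp
  obtain ⟨st, hst0, hst1, hst2, hst3⟩ := Kraft.process S (fun b s w => Inv u j b s w)
    (⟨∅, fun _ _ => 0, fun _ => 0⟩ : State M) h0 step (fun b s w => cost u j b s w) M
    (fun b _ s => hs1 b s) (fun b _ s w hw hi => (hs2 b s w hw hi).1)
  refine ⟨fun w => (st M w).psi, ?_, ?_⟩
  · refine ((hst3 M le_rfl).map State.psi).mono (Set.Subset.refl _) (fun _ _ => rfl)
      (fun w hw => ?_)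
    -- the sum of the costs
    have hmono : ∀ n, ∀ i, i ≤ n → n ≤ M → (st i w).act ⊆ (st n w).act := by
      intro n
      induction n with
      | zero =>
        intro i hi _
        have : i = 0 := by omega
        subst this
        exact Subset.refl _
      | succ n ih =>
        intro i hi hn
        rcases Nat.lt_or_ge n i with h | h
        · have : i = n + 1 := by omega
          subst this
          exact Subset.refl _
        · refine (ih i h (by omega)).trans ?_
          rw [hst1 n (by omega) w]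
          exact (hs2 n (st n w) w hw (hst2 n (by omega) w hw)).2.1
    have hact : ((st M w).act.card : ℝ) ≤ 8 * CV j * A * M / 8 ^ (2 * j) := by
      have h1 := (hst2 M le_rfl w hw).val
      have h2 := hT M u j (JJ u j) (4 * j) (SG u j) (st M w).act (st M w).h
        (hst2 M le_rfl w hw).rs hLg hJok w.g (A * M) (hS w hw).2 M
      have h3 := h1.trans h2
      have hC := CV_pos j
      rw [le_div_iff₀ (by positivity)]
      rw [div_div, ← mul_div_assoc, div_le_iff₀ (by positivity)] at h3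
      linarith
    have hexc : ((range M).filter (fun i => Exc u j i (st i w) w)) ⊆
        badCols (4 * j) M ∪ (st M w).act.biUnion (fun a => Ico a (a + JJ u j)) := by
      intro i hi
      obtain ⟨hiM, hE⟩ := mem_filter.1 hi
      have hiM := mem_range.1 hiM
      rw [mem_union, mem_biUnion]
      rcases (hs2 i (st i w) w hw (hst2 i hiM.le w hw)).2.2 hE with h | ⟨h, h'⟩
      · right
        rw [← hst1 i hiM w] at h
        refine ⟨i, hmono M (i + 1) hiM le_rfl h, mem_Ico.2 ⟨le_rfl, ?_⟩⟩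
        unfold JJ
        omega
      · by_contra hcon
        rw [not_or] at hcon
        refine h' ⟨h, allowed_of_not_mem _ _ _ hiM hcon.1, fun a ha => ?_⟩
        by_contra h3
        refine hcon.2 ⟨a, hmono M i hiM.le le_rfl ha, mem_Ico.2 ⟨?_, by omega⟩⟩
        exact ((hst2 i hiM.le w hw).sub a ha).le
    have hcard : (((range M).filter (fun i => Exc u j i (st i w) w)).card : ℝ)
        ≤ 8 * CV j * A * M * JJ u j / 8 ^ (2 * j)
          + 240 * (4 * j + 3) * (M : ℝ) / 2 ^ (4 * j) := by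
      have h1 : ((range M).filter (fun i => Exc u j i (st i w) w)).card
          ≤ (badCols (4 * j) M).card + (st M w).act.card * JJ u j := by
        refine (card_le_card hexc).trans ((card_union_le _ _).trans ?_)
        refine Nat.add_le_add_left ?_ _
        refine card_biUnion_le.trans ?_
        refine (sum_le_sum (fun a _ => (?_ : _ ≤ JJ u j))).trans ?_
        · rw [Nat.card_Ico]
          omega
        · rw [sum_const, smul_eq_mul]
      have h2 := card_badCols (4 * j) M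
      have h3 : (((badCols (4 * j) M).card : ℝ) + (st M w).act.card * JJ u j)
          ≤ 240 * (4 * j + 3) * (M : ℝ) / 2 ^ (4 * j)
            + 8 * CV j * A * M / 8 ^ (2 * j) * JJ u j := by
        refine add_le_add ?_ (mul_le_mul_of_nonneg_right hact (by positivity))
        push_cast at h2
        exact h2
      have h4 : (((range M).filter (fun i => Exc u j i (st i w) w)).card : ℝ)
          ≤ ((badCols (4 * j) M).card : ℝ) + (st M w).act.card * JJ u j := by
        exact_mod_cast h1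
      refine h4.trans (h3.trans (le_of_eq ?_))
      ring
    show ∑ i ∈ range M, cost u j i (st i w) w ≤ ctest A M u j
    unfold cost ctest
    rw [sum_add_distrib, sum_const, card_range, nsmul_eq_mul, ← sum_filter, sum_const,
      nsmul_eq_mul]
    have c1 := cex_nonneg M u j
    exact add_le_add le_rfl (mul_le_mul_of_nonneg_right hcard (by linarith))
  · intro w hw
    have hi := hst2 M le_rfl w hw
    exact ⟨hi.lam, fun b hR hc => hi.kn b hR.2.1 hR hc⟩

end Pool.Agent.H67.CP
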